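import Pool.Agent.Y17.N.Defs
import Pool.Agent.Z700.BIL2B
import Pool.Agent.Z419.Bil1

/-!
# Z17N-BIL3: the bilinear identity for inner products `3 mod 4`
-/

set_option autoImplicit false

namespace Pool.Agent.H170.N

open Finset Matrix
open Pool.Agent.Z700 Pool.Agent.Z419

set_option synthInstance.maxSize 1024 in
lemma dec4c : ∀ a0 a1 a2 b0 b1 b2 : ZMod 4, a0 * a0 = 1 → a1 * a1 = 1 → a2 * a2 = 1 → b0 * b0 = 1 →
    b1 * b1 = 1 → b2 * b2 = 1 →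
    (¬ (a0 * b0 + a1 * b1 + a2 * b2 = 1) ↔ a0 * b0 + a1 * b1 + a2 * b2 = 3) := by
  decide +kernel

lemma dec4b (a0 a1 a2 b0 b1 b2 : ZMod 4) (h1 : a0 * a0 = 1) (h2 : a1 * a1 = 1) (h3 : a2 * a2 = 1)
    (h4 : b0 * b0 = 1) (h5 : b1 * b1 = 1) (h6 : b2 * b2 = 1) :
    (a0 * b0 + a1 * b1 + a2 * b2 = 3 ↔ (a0 * a1 * a2 = 1 ↔ b0 * b1 * b2 = 1)) := by
  rw [← dec4c a0 a1 a2 b0 b1 b2 h1 h2 h3 h4 h5 h6, dec4 a0 a1 a2 b0 b1 b2 h1 h2 h3 h4 h5 h6,
    not_not]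

lemma cast43 (a : ℤ) : (a : ZMod 4) = 3 ↔ a % 4 = 3 := by
  have h := ZMod.intCast_eq_intCast_iff' a 3 4
  rw [Int.cast_ofNat] at h
  rw [h]
  norm_num

lemma dot_mod43 {N1 N2 : ℤ} (hN1 : N1 % 8 = 3) (hN2 : N2 % 8 = 3) {v w : V3} (hv : v ⬝ᵥ v = N1)
    (hw : w ⬝ᵥ w = N2) : (v ⬝ᵥ w) % 4 = 3 ↔ ep v = ep w := by
  have h1 := dec4b _ _ _ _ _ _ (odd_coord hN1 hv 0) (odd_coord hN1 hv 1) (odd_coord hN1 hv 2)
    (odd_coord hN2 hw 0) (odd_coord hN2 hw 1) (odd_coord hN2 hw 2)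
  have h2 : (v 0 : ZMod 4) * w 0 + (v 1 : ZMod 4) * w 1 + (v 2 : ZMod 4) * w 2 =
      ((v ⬝ᵥ w : ℤ) : ZMod 4) := by
    simp [dotProduct, Fin.sum_univ_three]
  have h3 : ∀ u : V3, (u 0 : ZMod 4) * u 1 * u 2 = ((u 0 * u 1 * u 2 : ℤ) : ZMod 4) := by
    intro u
    push_cast
    ring
  rw [h2, h3, h3, cast43, cast4, cast4] at h1
  rw [h1]
  unfold ep
  by_cases a : (v 0 * v 1 * v 2) % 4 = 1 <;> by_cases b : (w 0 * w 1 * w 2) % 4 = 1 <;> simp [a, b]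

lemma sg_prod' (N1 N2 : ℤ) (β1 β2 : ZMod 7) (n : Fin 3 → ZMod 7) :
    ∑ q ∈ vec N1 ×ˢ vec N2, (if ep q.1 = ep q.2 ∧ Ln n β1 q.1 ∧ Ln n β2 q.2 then chv q.1 * chv q.2 else 0) =
      Sg N1 n β1 1 * Sg N2 n β2 1 + Sg N1 n β1 (-1) * Sg N2 n β2 (-1) := by
  unfold Sg
  rw [Finset.sum_filter, Finset.sum_filter, Finset.sum_filter, Finset.sum_filter, Finset.sum_mul_sum,
    Finset.sum_mul_sum, ← Finset.sum_product', ← Finset.sum_product', ← Finset.sum_add_distrib]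
  refine Finset.sum_congr rfl fun q _ => ?_
  by_cases a : Ln n β1 q.1
  · by_cases b : Ln n β2 q.2
    · rcases ep_cases q.1 with h1 | h1 <;> rcases ep_cases q.2 with h2 | h2 <;> rw [h1, h2] <;> simp [a, b]
    · simp [b]
  · simp [a]

/-- the right hand side -/
lemma rhs_eq' {N1 N2 B : ℤ} {β1 β2 : ZMod 7} (hN1 : N1 % 8 = 3) (hN2 : N2 % 8 = 3) (h1 : 0 < N1) (h2 : 0 < N2)
    (hB : B = N1 * N2) (hβ : β1 ≠ 0) (hv7 : (N1 : ZMod 7) ≠ 0) :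
    6 * ∑ b ∈ (Ioo (-B) B).filter fun b : ℤ => b % 4 = 3, DD N1 N2 β1 β2 b =
      ∑ n : Fin 3 → ZMod 7, if n ≠ 0 ∧ n 0 ^ 2 + n 1 ^ 2 + n 2 ^ 2 = 0 then
        Sg N1 n β1 1 * Sg N2 n β2 1 + Sg N1 n β1 (-1) * Sg N2 n β2 (-1) else 0 := by
  have e1 : ∑ b ∈ (Ioo (-B) B).filter fun b : ℤ => b % 4 = 3, DD N1 N2 β1 β2 b =
      ∑ q ∈ vec N1 ×ˢ vec N2, if ep q.1 = ep q.2 ∧ (∃ n : Fin 3 → ZMod 7, n ≠ 0 ∧ Ln n β1 q.1 ∧ Ln n β2 q.2) then
        chv q.1 * chv q.2 else 0 := by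
    unfold DD
    simp only [Finset.sum_filter (s := vec N1 ×ˢ vec N2)]
    rw [Finset.sum_comm]
    refine Finset.sum_congr rfl fun q hq => ?_
    rw [Finset.mem_product] at hq
    have hq1 : q.1 ⬝ᵥ q.1 = N1 := (Finset.mem_filter.1 hq.1).2
    have hq2 : q.2 ⬝ᵥ q.2 = N2 := (Finset.mem_filter.1 hq.2).2
    have hmem : q.1 ⬝ᵥ q.2 ∈ Ioo (-B) B := by
      have hcs : (q.1 ⬝ᵥ q.2) ^ 2 ≤ N1 * N2 := by
        rw [← hq1, ← hq2]
        simp only [dotProduct, Fin.sum_univ_three]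
        nlinarith [sq_nonneg (q.1 0 * q.2 1 - q.1 1 * q.2 0), sq_nonneg (q.1 0 * q.2 2 - q.1 2 * q.2 0),
          sq_nonneg (q.1 1 * q.2 2 - q.1 2 * q.2 1)]
      rw [← hB] at hcs
      have hB1 : 1 < B := by
        have a1 : 3 ≤ N1 := by omega
        have a2 : 3 ≤ N2 := by omega
        rw [hB]
        nlinarith
      rw [Finset.mem_Ioo]
      refine abs_lt.1 (abs_lt_of_sq_lt_sq ?_ (by omega))
      nlinarith
    have hfil : (q.1 ⬝ᵥ q.2 ∈ (Ioo (-B) B).filter fun b : ℤ => b % 4 = 3) ↔ ep q.1 = ep q.2 := by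
      rw [Finset.mem_filter, dot_mod43 hN1 hN2 hq1 hq2]
      exact ⟨fun h => h.2, fun h => ⟨hmem, h⟩⟩
    by_cases hc : ∃ n : Fin 3 → ZMod 7, n ≠ 0 ∧ Ln n β1 q.1 ∧ Ln n β2 q.2
    · simp only [hc, and_true]
      rw [Finset.sum_ite_eq]
      exact if_congr hfil rfl rfl
    · simp only [hc, and_false, if_false, Finset.sum_const_zero]
  rw [e1, Finset.mul_sum]
  have e2 : ∀ q ∈ vec N1 ×ˢ vec N2, (6 * if ep q.1 = ep q.2 ∧ (∃ n : Fin 3 → ZMod 7, n ≠ 0 ∧ Ln n β1 q.1 ∧ Ln n β2 q.2)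
      then chv q.1 * chv q.2 else 0) = ∑ n : Fin 3 → ZMod 7, if n ≠ 0 then
        (if ep q.1 = ep q.2 ∧ Ln n β1 q.1 ∧ Ln n β2 q.2 then chv q.1 * chv q.2 else 0) else 0 := by
    intro q hq
    rw [Finset.mem_product] at hq
    have hq1 : q.1 ⬝ᵥ q.1 = N1 := (Finset.mem_filter.1 hq.1).2
    by_cases hep : ep q.1 = ep q.2
    · have h3 := six β1 β2 q.1 q.2 hβ (by rw [hq1]; exact hv7) (chv q.1 * chv q.2)
      have h4 : ∀ n : Fin 3 → ZMod 7, (if n ≠ 0 then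
        (if ep q.1 = ep q.2 ∧ Ln n β1 q.1 ∧ Ln n β2 q.2 then chv q.1 * chv q.2 else 0) else 0) =
        if n ≠ 0 ∧ Ln n β1 q.1 ∧ Ln n β2 q.2 then chv q.1 * chv q.2 else 0 := by
        intro n
        by_cases hn : n ≠ 0
        · simp only [hn, hep, ne_eq, not_false_eq_true, if_true, true_and]
        · simp only [hn, false_and, if_false]
      rw [Finset.sum_congr rfl fun n _ => h4 n, h3]
      by_cases hc : ∃ n : Fin 3 → ZMod 7, n ≠ 0 ∧ Ln n β1 q.1 ∧ Ln n β2 q.2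
      · rw [if_pos ⟨hep, hc⟩, if_pos hc]
      · rw [if_neg (fun h => hc h.2), if_neg hc, mul_zero]
    · simp only [hep, false_and, if_false, mul_zero, ite_self, Finset.sum_const_zero]
  rw [Finset.sum_congr rfl e2, Finset.sum_comm]
  refine Finset.sum_congr rfl fun n _ => ?_
  by_cases hn : n ≠ 0
  · simp only [if_pos hn]
    rw [sg_prod']
    by_cases hi : n 0 ^ 2 + n 1 ^ 2 + n 2 ^ 2 = 0
    · rw [if_pos ⟨hn, hi⟩]
    · rw [if_neg (fun h => hi h.2), sg_zero hβ hi, sg_zero hβ hi]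
      ring
  · simp only [hn, false_and, if_false, Finset.sum_const_zero]

/-- the contribution of one line -/
lemma line_val' (h : S_SG) (h1 : S_SG1) {D1 D2 : Finset ℕ} (hD1 : ∀ p ∈ D1, Fam p) (hD2 : ∀ p ∈ D2, Fam p)
    (hne : D1.Nonempty ∨ D2.Nonempty) (n : Fin 3 → ZMod 7) (hn : n ≠ 0)
    (hi : n 0 ^ 2 + n 1 ^ 2 + n 2 ^ 2 = 0) :
    2 * (Sg (3 * (pr D1 : ℤ)) n (be D1) 1 * Sg (3 * (pr D2 : ℤ)) n (be D2) 1 +
      Sg (3 * (pr D1 : ℤ)) n (be D1) (-1) * Sg (3 * (pr D2 : ℤ)) n (be D2) (-1)) = pii D1 * pii D2 := by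
  have hbe : be ∅ = 2 := by simp [be]
  have hpr : (3 * (pr ∅ : ℤ)) = 3 := by simp [pr]
  have hE := h1 n hn hi
  rcases D1.eq_empty_or_nonempty with e1 | e1
  · rcases D2.eq_empty_or_nonempty with e2 | e2
    · subst e1 e2
      simp at hne
    · subst e1
      have k1 := h D2 hD2 e2 n hn hi 1 (Or.inl rfl)
      have k2 := h D2 hD2 e2 n hn hi (-1) (Or.inr rfl)
      rw [hbe, hpr, hE.1, hE.2, pii_empty h1]
      rcases sgl_cases n with s | s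
      · rw [s] at k1 k2 ⊢
        norm_num
        linarith
      · rw [s] at k1 k2 ⊢
        norm_num
        linarith
  · rcases D2.eq_empty_or_nonempty with e2 | e2
    · subst e2
      have k1 := h D1 hD1 e1 n hn hi 1 (Or.inl rfl)
      have k2 := h D1 hD1 e1 n hn hi (-1) (Or.inr rfl)
      rw [hbe, hpr, hE.1, hE.2, pii_empty h1]
      rcases sgl_cases n with s | s
      · rw [s] at k1 k2 ⊢
        norm_num
        linarith
      · rw [s] at k1 k2 ⊢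
        norm_num
        linarith
    · have k1 := h D1 hD1 e1 n hn hi 1 (Or.inl rfl)
      have k2 := h D1 hD1 e1 n hn hi (-1) (Or.inr rfl)
      have k3 := h D2 hD2 e2 n hn hi 1 (Or.inl rfl)
      have k4 := h D2 hD2 e2 n hn hi (-1) (Or.inr rfl)
      have hs : sgl n * sgl n = 1 := by
        rcases sgl_cases n with s | s <;> rw [s] <;> norm_num
      have e5 : (2 * Sg (3 * (pr D1 : ℤ)) n (be D1) 1) * (2 * Sg (3 * (pr D2 : ℤ)) n (be D2) 1) =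
          pii D1 * pii D2 := by
        rw [k1, k3]
        linear_combination (pii D1 * pii D2) * hs
      have e6 : (2 * Sg (3 * (pr D1 : ℤ)) n (be D1) (-1)) * (2 * Sg (3 * (pr D2 : ℤ)) n (be D2) (-1)) =
          pii D1 * pii D2 := by
        rw [k2, k4]
        linear_combination (pii D1 * pii D2) * hs
      linarith

theorem bil1' (h : S_SG) (h1 : S_SG1) (P : Finset ℕ) (hP : ∀ p ∈ P, Fam p) (D1 : Finset ℕ)
    (s1 : D1 ⊆ P) (D2 : Finset ℕ) (s2 : D2 ⊆ P) (hne : D1.Nonempty ∨ D2.Nonempty) :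
    4 * (pii D1 * pii D2) =
      ∑ b ∈ (Ioo (-(9 * (pr D1 : ℤ) * (pr D2 : ℤ))) (9 * (pr D1 : ℤ) * (pr D2 : ℤ))).filter
        fun b : ℤ => b % 4 = 3, DD (3 * (pr D1 : ℤ)) (3 * (pr D2 : ℤ)) (be D1) (be D2) b := by
  have hD1 : ∀ p ∈ D1, Fam p := fun p hp => hP p (s1 hp)
  have hD2 : ∀ p ∈ D2, Fam p := fun p hp => hP p (s2 hp)
  have m1 := pr_mod hD1
  have m2 := pr_mod hD2
  have c7 : ((3 * (pr D1 : ℤ) : ℤ) : ZMod 7) ≠ 0 := by
    push_cast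
    exact mul_ne_zero (by decide) (pr_ne7 hD1)
  have k := rhs_eq' (N1 := 3 * (pr D1 : ℤ)) (N2 := 3 * (pr D2 : ℤ)) (B := 9 * (pr D1 : ℤ) * (pr D2 : ℤ))
    (β1 := be D1) (β2 := be D2) (by omega) (by omega) (by omega) (by omega) (by ring) be_ne c7
  have k2 : 2 * ∑ n : Fin 3 → ZMod 7, (if n ≠ 0 ∧ n 0 ^ 2 + n 1 ^ 2 + n 2 ^ 2 = 0 then
        Sg (3 * (pr D1 : ℤ)) n (be D1) 1 * Sg (3 * (pr D2 : ℤ)) n (be D2) 1 +
          Sg (3 * (pr D1 : ℤ)) n (be D1) (-1) * Sg (3 * (pr D2 : ℤ)) n (be D2) (-1) else 0) =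
      48 * (pii D1 * pii D2) := by
    rw [Finset.mul_sum]
    have k3 : ∀ n : Fin 3 → ZMod 7, (2 * if n ≠ 0 ∧ n 0 ^ 2 + n 1 ^ 2 + n 2 ^ 2 = 0 then
        Sg (3 * (pr D1 : ℤ)) n (be D1) 1 * Sg (3 * (pr D2 : ℤ)) n (be D2) 1 +
          Sg (3 * (pr D1 : ℤ)) n (be D1) (-1) * Sg (3 * (pr D2 : ℤ)) n (be D2) (-1) else 0) =
        if n ≠ 0 ∧ n 0 ^ 2 + n 1 ^ 2 + n 2 ^ 2 = 0 then pii D1 * pii D2 else 0 := by
      intro n
      by_cases hn : n ≠ 0 ∧ n 0 ^ 2 + n 1 ^ 2 + n 2 ^ 2 = 0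
      · rw [if_pos hn, if_pos hn, line_val' h h1 hD1 hD2 hne n hn.1 hn.2]
      · rw [if_neg hn, if_neg hn, mul_zero]
    rw [Finset.sum_congr rfl fun n _ => k3 n, ← Finset.sum_filter, Finset.sum_const, card48, nsmul_eq_mul]
    norm_num
  linarith

open Pool.Agent.Z700.BIL2B in
/-- evaluation of the counts, inner products `3 mod 4` -/
theorem bil2b' (h : S_PC) (P : Finset ℕ) (hP : ∀ p ∈ P, Fam p) (D1 : Finset ℕ)
    (s1 : D1 ⊆ P) (D2 : Finset ℕ) (s2 : D2 ⊆ P) (hd : Disjoint D1 D2)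
    (hne : D1.Nonempty ∨ D2.Nonempty) (b : ℤ) (hb4 : b % 4 = 3)
    (hb7 : (b : ZMod 7) = -(be D1 * be D2)) :
    ((cp (3 * (pr D1 : ℤ)) b (3 * (pr D2 : ℤ)) +
      cp7 (3 * (pr D1 : ℤ)) b (3 * (pr D2 : ℤ)) (be D1) (be D2) : ℕ) : ℤ) =
      if 0 < dis D1 D2 b then 48 * loc (3 * pr D1) (dis D1 D2 b) else 0 := by
  have hP1 : ∀ p ∈ D1, Fam p := fun p hp => hP p (s1 hp)
  have hP2 : ∀ p ∈ D2, Fam p := fun p hp => hP p (s2 hp)
  have m1 := BIL2B.pr_mod D1 hP1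
  have m2 := BIL2B.pr_mod D2 hP2
  by_cases hD : 0 < dis D1 D2 b
  · rw [if_pos hD]
    have hDD : (dis D1 D2 b : ℤ) = ((3 * pr D1 : ℕ) : ℤ) * ((3 * pr D2 : ℕ) : ℤ) - b ^ 2 := by
      unfold dis at hD ⊢
      rw [Int.toNat_of_nonneg (by omega)]
      push_cast
      ring
    have hbo : Odd b := by
      rw [Int.odd_iff]
      omega
    have key := main_pos h (3 * pr D1) (3 * pr D2) (dis D1 D2 b) b (be D1) (be D2) (sq3pr D1 hP1)
      (by omega) (by omega) hbo hD hDD (be_sq D1 hP1) (be_sq D2 hP2) (BIL2B.be_ne D1 hP1) hb7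
    rw [← key]
    push_cast
    rfl
  · rw [if_neg hD]
    have hle : 9 * (pr D1 : ℤ) * (pr D2 : ℤ) ≤ b ^ 2 := by
      unfold dis at hD
      omega
    have hns : b ^ 2 ≠ 9 * (pr D1 : ℤ) * (pr D2 : ℤ) := by
      intro hbb
      have h12 : ∀ p ∈ D1 ∪ D2, Fam p := by
        intro p hp
        rcases Finset.mem_union.1 hp with hp | hp
        · exact hP1 p hp
        · exact hP2 p hp
      have hsq := pr_sq (D1 ∪ D2) h12
      have hlt : 1 < pr (D1 ∪ D2) := one_lt_pr _ h12 (by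
        rcases hne with hne | hne
        · exact hne.mono Finset.subset_union_left
        · exact hne.mono Finset.subset_union_right)
      have h3 : (b.natAbs) ^ 2 = 3 ^ 2 * pr (D1 ∪ D2) := by
        have : ((b.natAbs ^ 2 : ℕ) : ℤ) = ((3 ^ 2 * pr (D1 ∪ D2) : ℕ) : ℤ) := by
          rw [← pr_union D1 D2 hd]
          push_cast
          rw [sq_abs, hbb]
          ring
        exact_mod_cast this
      have h4 : 3 ∣ b.natAbs := by
        have : 3 ∣ b.natAbs ^ 2 := by rw [h3]; exact Dvd.dvd.mul_right (by norm_num) _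
        exact Nat.prime_three.dvd_of_dvd_pow this
      obtain ⟨c, hc⟩ := h4
      rw [hc, mul_pow] at h3
      have h5 : c ^ 2 = pr (D1 ∪ D2) := Nat.eq_of_mul_eq_mul_left (by norm_num) h3
      rw [← h5] at hsq hlt
      have h6 : IsUnit c := hsq c (by rw [sq])
      rw [Nat.isUnit_iff] at h6
      rw [h6] at hlt
      norm_num at hlt
    have hlt : 9 * (pr D1 : ℤ) * (pr D2 : ℤ) < b ^ 2 := lt_of_le_of_ne hle hns.symm
    have h0 : cp (3 * (pr D1 : ℤ)) b (3 * (pr D2 : ℤ)) = 0 := by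
      apply cp_zero
      linarith
    have h7 : cp7 (3 * (pr D1 : ℤ)) b (3 * (pr D2 : ℤ)) (be D1) (be D2) = 0 := by
      have := cp7_le (3 * (pr D1 : ℤ)) b (3 * (pr D2 : ℤ)) (be D1) (be D2)
      omega
    rw [h0, h7]
    rfl

/-- BIL3 from its ingredients -/
theorem bil3_of (hG : S_SG) (hG1 : S_SG1) (hA : S_BIL2A) (hPC : S_PC) : Pool.Agent.Y17.N.S_BIL3 := by
  intro P hP D1 s1 D2 s2 hd hn hne
  have hd' : Disjoint D1 D2 := hd.resolve_right hne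
  have k1 := bil1' hG hG1 P hP D1 s1 D2 s2 hn
  have k2 : ∀ b ∈ (Ioo (-(9 * (pr D1 : ℤ) * (pr D2 : ℤ)))
      (9 * (pr D1 : ℤ) * (pr D2 : ℤ))).filter fun b : ℤ => b % 4 = 3,
      DD (3 * (pr D1 : ℤ)) (3 * (pr D2 : ℤ)) (be D1) (be D2) b =
      if (b : ZMod 7) = -(be D1 * be D2) ∧ 0 < dis D1 D2 b then
      24 * (wt b * loc (3 * pr D1) (dis D1 D2 b)) else 0 := by
    intro b hb
    have hb4 : b % 4 = 3 := (Finset.mem_filter.1 hb).2
    have j1 := hA P hP D1 s1 D2 s2 b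
    by_cases hb7 : (b : ZMod 7) = -(be D1 * be D2)
    · have j2 := bil2b' hPC P hP D1 s1 D2 s2 hd' hn b hb4 hb7
      rw [if_pos hb7] at j1
      push_cast at j2
      rw [j2] at j1
      by_cases hD : 0 < dis D1 D2 b
      · rw [if_pos ⟨hb7, hD⟩]
        rw [if_pos hD] at j1
        linarith
      · rw [if_neg (fun h => hD h.2)]
        rw [if_neg hD] at j1
        linarith
    · rw [if_neg (fun h => hb7 h.1)]
      rw [if_neg hb7] at j1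
      linarith
  rw [Finset.sum_congr rfl k2, ← Finset.sum_filter, ← Finset.mul_sum, Finset.filter_filter] at k1
  have k3 : Pool.Agent.Y17.N.RG wt D1 D2 3 = ∑ b ∈ (Ioo (-(9 * (pr D1 : ℤ) * (pr D2 : ℤ)))
      (9 * (pr D1 : ℤ) * (pr D2 : ℤ))).filter
      fun b : ℤ => b % 4 = 3 ∧ (b : ZMod 7) = -(be D1 * be D2) ∧ 0 < dis D1 D2 b,
      wt b * loc (3 * pr D1) (dis D1 D2 b) := rfl
  rw [← k3] at k1
  linarith

end Pool.Agent.H170.N
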