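import Pool.Agent.H170.N.BIL3
import Pool.Agent.Z700.SG
import Pool.Agent.Z700.JAC
import Pool.Agent.Z700.EV
import Pool.Agent.Y288.Z7.Cnt
import Pool.Agent.Y155.Z7.XC
import Pool.Agent.Z994.BIL2A

/-!
# Z17N-BIL3: the bilinear identity for inner products `3 mod 4`, final form
-/

set_option autoImplicit false

namespace Pool.Agent.H170.N

open Pool.Agent.Z700

/-- BIL3 -/
theorem t_BIL3 : Pool.Agent.Y17.N.S_BIL3 :=
  bil3_of (t_SG t_JAC) t_SG1 Pool.Agent.Z994.t_BIL2A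
    (pc_of Pool.Agent.Y288.Z7.t_CNT' Pool.Agent.Y155.Z7.t_XC t_EV)

end Pool.Agent.H170.N
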